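import Pool.Agent.MP_739d9d_an.Concrete

/-! Stable rank one for crossed products and fixed point algebras of finite group actions with the
weak tracial Rokhlin property, for every realization of the crossed product. -/

set_option autoImplicit false

open Filter Topology

namespace Pool.Agent.Results.MP_739d9d_an.CrossedProducts

/-- Stable rank one: the invertible elements are dense. -/
def StableRankOne (A : Type*) [Ring A] [TopologicalSpace A] : Prop := Dense {a : A | IsUnit a}

/-- Simple: every closed two-sided ideal is zero or contains the unit. -/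
def Simple (A : Type*) [Ring A] [TopologicalSpace A] : Prop :=
  ∀ I : TwoSidedIdeal A, IsClosed (I : Set A) → (∀ x ∈ I, x = 0) ∨ (1 : A) ∈ I

/-- Positive elements. -/
def Pos {A : Type*} [CStarAlgebra A] (a : A) : Prop := ∃ y : A, a = star y * y

/-- Cuntz subequivalence. -/
def CuntzLE {A : Type*} [CStarAlgebra A] (a b : A) : Prop :=
  ∃ v : ℕ → A, Tendsto (fun n => v n * b * star (v n)) atTop (𝓝 a)

/-- The weak tracial Rokhlin property. -/
def WeakTracialRokhlin {A G : Type*} [CStarAlgebra A] [Group G] [Fintype G]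
    (α : G →* (A ≃⋆ₐ[ℂ] A)) : Prop :=
  ∀ ε : ℝ, 0 < ε → ∀ F : Finset A, ∀ x : A, Pos x → ‖x‖ = 1 →
    ∃ f : G → A, (∀ g, Pos (f g) ∧ ‖f g‖ ≤ 1) ∧ (∀ g h, g ≠ h → f g * f h = 0) ∧
      (∀ g h, ‖α g (f h) - f (g * h)‖ < ε) ∧ (∀ a ∈ F, ∀ g, ‖f g * a - a * f g‖ < ε) ∧
      CuntzLE (1 - ∑ g, f g) x ∧ 1 - ε < ‖(∑ g, f g) * x * (∑ g, f g)‖

/-- `B` with the copy `ι` of `A` and the unitaries `u` is the crossed product of `A` by the finite
group `G`: the unitaries implement the action, and every element of `B` is in exactly one way a sum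
of the elements `ι (c g) * u g`. -/
structure IsCrossedProduct {A G B : Type*} [CStarAlgebra A] [Group G] [Fintype G]
    [CStarAlgebra B] (α : G →* (A ≃⋆ₐ[ℂ] A)) (ι : A →⋆ₐ[ℂ] B) (u : G →* unitary B) : Prop where
  covariant : ∀ g a, (u g : B) * ι a * star (u g : B) = ι (α g a)
  expansion : ∀ b : B, ∃! c : G → A, b = ∑ g, ι (c g) * (u g : B)

/-- The fixed point algebra. -/
def fixedPoints {A G : Type*} [CStarAlgebra A] [Group G] (α : G →* (A ≃⋆ₐ[ℂ] A)) :
    StarSubalgebra ℂ A where
  carrier := {a | ∀ g, α g a = a}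
  mul_mem' := fun ha hb g => by rw [map_mul, ha g, hb g]
  add_mem' := fun ha hb g => by rw [map_add, ha g, hb g]
  algebraMap_mem' := fun r g => by
    rw [Algebra.algebraMap_eq_smul_one, map_smul, map_one]
  star_mem' := fun ha g => by rw [map_star, ha g]

section hom

open Pool.Agent.MP_739d9d_an

variable {A G B B' : Type*} [CStarAlgebra A] [Group G] [Fintype G] {α : G → (A ≃⋆ₐ[ℂ] A)}
  [CStarAlgebra B] [CStarAlgebra B'] (cp : CP α B) (cp' : CP α B')

private theorem co_eq {b : B} {a : G → A} (h : ∑ g, cp.ι (a g) * cp.u g = b) : cp.co b = a := by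
  rw [← h]; exact cp.co_uniq a

private noncomputable def phi (b : B) : B' := ∑ g, cp'.ι (cp.co b g) * cp'.u g

private theorem phi_add (x y : B) : phi cp cp' (x + y) = phi cp cp' x + phi cp cp' y := by
  have h : cp.co (x + y) = fun g => cp.co x g + cp.co y g := by
    apply co_eq
    simp only [map_add, add_mul, Finset.sum_add_distrib, cp.co_spec]
  unfold phi
  rw [h, ← Finset.sum_add_distrib]
  exact Finset.sum_congr rfl fun g _ => by rw [map_add, add_mul]

private theorem phi_sum {ι : Type*} (s : Finset ι) (f : ι → B) :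
    phi cp cp' (∑ i ∈ s, f i) = ∑ i ∈ s, phi cp cp' (f i) :=
  map_sum (AddMonoidHom.mk' (phi cp cp') (phi_add cp cp')) f s

private theorem phi_term (a : A) (k : G) : phi cp cp' (cp.ι a * cp.u k) = cp'.ι a * cp'.u k := by
  classical
  have h : cp.co (cp.ι a * cp.u k) = Pi.single k a := by
    apply co_eq
    rw [Finset.sum_eq_single k]
    · rw [Pi.single_eq_same]
    · intro g _ hg
      rw [Pi.single_eq_of_ne hg, map_zero, zero_mul]
    · intro h; exact absurd (Finset.mem_univ _) h
  unfold phi
  rw [h, Finset.sum_eq_single k]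
  · rw [Pi.single_eq_same]
  · intro g _ hg
    rw [Pi.single_eq_of_ne hg, map_zero, zero_mul]
  · intro h; exact absurd (Finset.mem_univ _) h

private theorem term_mul (a b : A) (g h : G) :
    (cp.ι a * cp.u g) * (cp.ι b * cp.u h) = cp.ι (a * α g b) * cp.u (g * h) := by
  calc (cp.ι a * cp.u g) * (cp.ι b * cp.u h) = cp.ι a * (cp.u g * cp.ι b) * cp.u h := by
        simp only [mul_assoc]
    _ = cp.ι a * (cp.ι (α g b) * cp.u g) * cp.u h := by rw [cp.u_comm]
    _ = _ := by rw [map_mul, ← cp.u_mul]; simp only [mul_assoc]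

private theorem phi_mul (x y : B) : phi cp cp' (x * y) = phi cp cp' x * phi cp cp' y := by
  have h : x * y = ∑ g, ∑ h, cp.ι (cp.co x g * α g (cp.co y h)) * cp.u (g * h) := by
    conv_lhs => rw [← cp.co_spec x, ← cp.co_spec y]
    rw [Finset.sum_mul_sum]
    exact Finset.sum_congr rfl fun g _ => Finset.sum_congr rfl fun h _ => term_mul cp _ _ _ _
  rw [h, phi_sum]
  simp_rw [phi_sum, phi_term]
  unfold phi
  rw [Finset.sum_mul_sum]
  exact Finset.sum_congr rfl fun g _ => Finset.sum_congr rfl fun h _ =>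
    (term_mul cp' _ _ _ _).symm

private theorem phi_algebraMap (r : ℂ) :
    phi cp cp' (algebraMap ℂ B r) = algebraMap ℂ B' r := by
  have h1 : algebraMap ℂ B r = cp.ι (algebraMap ℂ A r) * cp.u 1 := by
    rw [cp.u_one, mul_one, AlgHomClass.commutes cp.ι]
  rw [h1, phi_term, cp'.u_one, mul_one, AlgHomClass.commutes cp'.ι]

private theorem term_star (a : A) (g : G) :
    star (cp.ι a * cp.u g) = cp.ι (α g⁻¹ (star a)) * cp.u g⁻¹ := by
  rw [star_mul, cp.u_star, ← map_star, cp.u_comm]

private theorem phi_star (x : B) : phi cp cp' (star x) = star (phi cp cp' x) := by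
  have h : star x = ∑ g, cp.ι (α g⁻¹ (star (cp.co x g))) * cp.u g⁻¹ := by
    conv_lhs => rw [← cp.co_spec x]
    rw [star_sum]
    exact Finset.sum_congr rfl fun g _ => term_star cp _ _
  rw [h, phi_sum]
  simp_rw [phi_term]
  unfold phi
  rw [star_sum]
  exact Finset.sum_congr rfl fun g _ => (term_star cp' _ _).symm

/-- any two realizations are isomorphic -/
private noncomputable def hom : B →⋆ₐ[ℂ] B' where
  toFun := phi cp cp'
  map_one' := by
    have := phi_algebraMap cp cp' 1
    rwa [map_one, map_one] at this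
  map_mul' := phi_mul cp cp'
  map_zero' := by
    have := phi_algebraMap cp cp' 0
    rwa [map_zero, map_zero] at this
  map_add' := phi_add cp cp'
  commutes' := phi_algebraMap cp cp'
  map_star' := phi_star cp cp'

private theorem hom_hom (b : B) : hom cp' cp (hom cp cp' b) = b := by
  have h1 : cp'.co (phi cp cp' b) = cp.co b := cp'.co_uniq (cp.co b)
  change phi cp' cp (phi cp cp' b) = b
  change ∑ g, cp.ι (cp'.co (phi cp cp' b) g) * cp.u g = b
  rw [h1]
  exact cp.co_spec b

end hom

open Pool.Agent.MP_739d9d_an in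
private theorem core {A G : Type*} [CStarAlgebra A] [Group G] [Fintype G] (hA : Simple A)
    (hd : StableRankOne A) (α : G →* (A ≃⋆ₐ[ℂ] A)) (hα : WeakTracialRokhlin α) :
    (∀ {B : Type*} [CStarAlgebra B], CP (fun g => α g) B → ∀ b : B, LU b) ∧
      ∀ a : A, (∀ g, α g a = a) → ∀ ε : ℝ, 0 < ε → ∃ b c : A,
        (∀ g, α g b = b) ∧ (∀ g, α g c = c) ∧ b * c = 1 ∧ c * b = 1 ∧ ‖a - b‖ < ε := by
  classical
  have hα1 : ∀ a : A, (fun g => α g) 1 a = a := fun a => by
    change α 1 a = a
    rw [map_one]
    rfl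
  have hαm : ∀ (g h : G) (a : A), (fun g => α g) (g * h) a = (fun g => α g) g ((fun g => α g) h a) :=
    fun g h a => by
      change α (g * h) a = α g (α h a)
      rw [map_mul]
      rfl
  let _ : PartialOrder A := CStarAlgebra.spectralOrder A
  have _ : StarOrderedRing A := CStarAlgebra.spectralOrderedRing A
  have hW' : WTRP (fun g => α g) := hα
  have hmat := matSR_of_dense hd G
  have hsr : Dense {b : CStarMatrix G G A | IsUnit b} := by
    intro M
    have hex : ∀ n : ℕ, ∃ M' : Matrix G G A, IsUnit M' ∧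
        ∀ i j, ‖(M : Matrix G G A) i j - M' i j‖ < 1 / ((n : ℝ) + 1) :=
      fun n => hmat M _ (by positivity)
    choose M' hM'u hM' using hex
    have ht : Tendsto (fun n => (CStarMatrix.ofMatrix (M' n) : CStarMatrix G G A)) atTop (𝓝 M) := by
      have h1 : Tendsto M' atTop (𝓝 (M : Matrix G G A)) := by
        refine tendsto_pi_nhds.2 fun i => tendsto_pi_nhds.2 fun j => ?_
        rw [tendsto_iff_norm_sub_tendsto_zero]
        refine squeeze_zero (fun n => norm_nonneg _) (fun n => ?_)
          (tendsto_one_div_add_atTop_nhds_zero_nat (𝕜 := ℝ))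
        rw [← norm_neg, neg_sub]
        exact (hM' n i j).le
      exact h1
    refine mem_closure_of_tendsto ht (Eventually.of_forall fun n => ?_)
    exact (hM'u n).map (CStarMatrix.ofMatrixRingEquiv (n := G) (A := A))
  set B₀ := cov (fun g => α g) hα1 hαm with hB
  let _ : PartialOrder B₀ := CStarAlgebra.spectralOrder B₀
  have _ : StarOrderedRing B₀ := CStarAlgebra.spectralOrderedRing B₀
  let cp : CP (fun g => α g) B₀ := cpc (fun g => α g) hα1 hαm
  have hfin : ∀ x y : B₀, x * y = 1 → y * x = 1 := by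
    intro x y hxy
    apply Subtype.ext
    exact finite_of_dense hsr (x : CStarMatrix G G A) y (congrArg Subtype.val hxy)
  have hLU : ∀ b : B₀, LU b := cp.all_LU hα1 hαm hA hd hsr hW' hfin
  refine ⟨?_, ?_⟩
  · intro B _ cpB b ε hε
    obtain ⟨w, hw, hwb⟩ := hLU (hom cpB cp b) ε hε
    refine ⟨hom cp cpB w, hw.map _, ?_⟩
    have h1 : hom cp cpB w - b = hom cp cpB (w - hom cpB cp b) := by
      rw [map_sub, hom_hom]
    rw [h1]
    exact (NonUnitalStarAlgHom.norm_apply_le (hom cp cpB) _).trans hwb
  · intro a ha ε hε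
    refine cp.fixed_LU hαm ?_ hLU a ha hε
    intro b
    exact CStarMatrix.norm_entry_le_norm (M := (b : CStarMatrix G G A)) (i := 1) (j := 1⁻¹)

open Pool.Agent.MP_739d9d_an in
/-- Let `A` be a simple unital C*-algebra of stable rank one and `α` an action of a finite group on
`A` with the weak tracial Rokhlin property. Then every realization `B` of the crossed product and
the fixed point algebra have stable rank one. -/
theorem result {A G B : Type*} [CStarAlgebra A] [Group G] [Fintype G] [CStarAlgebra B]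
    (hA : Simple A) (hA' : StableRankOne A) (α : G →* (A ≃⋆ₐ[ℂ] A)) (hα : WeakTracialRokhlin α)
    (ι : A →⋆ₐ[ℂ] B) (u : G →* unitary B) (hB : IsCrossedProduct α ι u) :
    StableRankOne B ∧ StableRankOne (fixedPoints α) := by
  obtain ⟨h1, h2⟩ := core hA hA' α hα
  refine ⟨?_, ?_⟩
  · choose co hco hun using hB.expansion
    have hcom : ∀ g a, (u g : B) * ι a = ι (α g a) * (u g : B) := fun g a => by
      rw [← hB.covariant g a, mul_assoc, Unitary.coe_star_mul_self, mul_one]
    let cp : CP (fun g => α g) B :=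
      { ι := ι
        u := fun g => (u g : B)
        u_one := by rw [map_one]; rfl
        u_mul := fun g h => by rw [map_mul]; rfl
        u_star := fun g => by rw [map_inv]; rfl
        u_comm := hcom
        co := co
        co_spec := fun b => (hco b).symm
        co_uniq := fun a => (hun _ a rfl).symm }
    intro b
    rw [Metric.mem_closure_iff]
    intro ε hε
    obtain ⟨w, hw, hwb⟩ := h1 cp b (ε / 2) (by positivity)
    refine ⟨w, hw, ?_⟩
    rw [dist_eq_norm, ← norm_neg, neg_sub]
    linarith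
  · rintro ⟨a, ha⟩
    rw [Metric.mem_closure_iff]
    intro ε hε
    obtain ⟨b, c, hb, hc, hbc, hcb, hab⟩ := h2 a ha ε hε
    refine ⟨⟨b, hb⟩, ⟨⟨⟨b, hb⟩, ⟨c, hc⟩, Subtype.ext hbc, Subtype.ext hcb⟩, rfl⟩, ?_⟩
    rw [Subtype.dist_eq, dist_eq_norm]
    exact hab

end Pool.Agent.Results.MP_739d9d_an.CrossedProducts
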